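import Mathlib
import Pool.Agent.Y91.P.Spin
import Pool.Agent.Y91.G.Stm

/-!
# Spin representations: the dimension of a summand is a power of two
-/

set_option linter.unusedSectionVars false

universe u

namespace Pool.Agent.Y442.G

open Module LinearMap Pool.Agent.W548.Odd Pool.Agent.Y91.JP Pool.Agent.Y91.P Pool.Agent.Y91.G

/-! ### Anticommuting involutions without a form -/

section cf

variable {K : Type*} [Field K] [CharZero K]

/-- Anticommuting involutions without nontrivial stable subspaces. -/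
structure CF {V : Type*} [AddCommGroup V] [Module K V] (M : ℕ) (Y : ℕ → End K V) : Prop where
  sq : ∀ i < M, Y i * Y i = 1
  anti : ∀ i < M, ∀ j < M, i ≠ j → Y i * Y j = -(Y j * Y i)
  irr : ∀ W : Submodule K V, (∀ i < M, ∀ w ∈ W, Y i w ∈ W) → W ≠ ⊥ → W = ⊤

theorem CF.step {V : Type u} [AddCommGroup V] [Module K V] [FiniteDimensional K V] {M : ℕ}
    {Y : ℕ → End K V} (C : CF (M + 2) Y) {ι : K} (hι : ι * ι = -1) :
    ∃ Y' : ℕ → End K (Fix (Y 0)), CF M Y' := by
  have hY0 : Y 0 * Y 0 = 1 := C.sq 0 (by omega)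
  have hY1 : Y 1 * Y 1 = 1 := C.sq 1 (by omega)
  have h01 : Y 0 * Y 1 = -(Y 1 * Y 0) := C.anti 0 (by omega) 1 (by omega) (by omega)
  have hc : ∀ j < M, Y 0 * (Y 1 * Y (j + 2)) = Y 1 * Y (j + 2) * Y 0 := by
    intro j hj
    rw [← mul_assoc, h01, neg_mul, mul_assoc, C.anti 0 (by omega) (j + 2) (by omega) (by omega),
      mul_neg, neg_neg, mul_assoc]
  have hmem : ∀ j < M, ∀ v ∈ Fix (Y 0), (ι • (Y 1 * Y (j + 2))) v ∈ Fix (Y 0) := by
    intro j hj v hv
    have hv' : Y 0 v = v := hv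
    change Y 0 (ι • (Y 1 * Y (j + 2)) v) = ι • (Y 1 * Y (j + 2)) v
    rw [map_smul]
    have e1 := LinearMap.congr_fun (hc j hj) v
    change Y 0 ((Y 1 * Y (j + 2)) v) = (Y 1 * Y (j + 2)) (Y 0 v) at e1
    rw [e1, hv']
  let Y' : ℕ → End K (Fix (Y 0)) := fun j =>
    if hj : j < M then (ι • (Y 1 * Y (j + 2))).restrict (hmem j hj) else 0
  have hY' : ∀ j < M, ∀ v : Fix (Y 0), ((Y' j v : Fix (Y 0)) : V) = ι • Y 1 (Y (j + 2) v) := by
    intro j hj v
    simp only [Y', dif_pos hj]
    rfl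
  refine ⟨Y', ?_, ?_, ?_⟩
  · intro i hi
    refine LinearMap.ext fun v => Subtype.ext ?_
    change ((Y' i (Y' i v) : Fix (Y 0)) : V) = v
    rw [hY' i hi, hY' i hi, map_smul, map_smul, smul_smul, hι]
    have e1 : Y 1 * Y (i + 2) * (Y 1 * Y (i + 2)) = -1 := by
      calc Y 1 * Y (i + 2) * (Y 1 * Y (i + 2)) = Y 1 * (Y (i + 2) * Y 1) * Y (i + 2) := by
            noncomm_ring
      _ = -(Y 1 * Y 1 * (Y (i + 2) * Y (i + 2))) := by
        rw [C.anti (i + 2) (by omega) 1 (by omega) (by omega)]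
        noncomm_ring
      _ = -1 := by rw [hY1, C.sq (i + 2) (by omega), mul_one]
    have e2 := LinearMap.congr_fun e1 (v : V)
    change Y 1 (Y (i + 2) (Y 1 (Y (i + 2) v))) = -(v : V) at e2
    rw [e2, neg_smul, one_smul, neg_neg]
  · intro i hi j hj hij
    refine LinearMap.ext fun v => Subtype.ext ?_
    change ((Y' i (Y' j v) : Fix (Y 0)) : V) = -((Y' j (Y' i v) : Fix (Y 0)) : V)
    rw [hY' i hi, hY' j hj, hY' j hj, hY' i hi]
    simp only [map_smul]
    rw [← smul_neg, ← smul_neg]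
    congr 2
    have e1 : Y 1 * Y (i + 2) * (Y 1 * Y (j + 2)) = -(Y 1 * Y (j + 2) * (Y 1 * Y (i + 2))) := by
      have k1 : Y 1 * Y (i + 2) * (Y 1 * Y (j + 2)) = -(Y (i + 2) * Y (j + 2)) := by
        calc Y 1 * Y (i + 2) * (Y 1 * Y (j + 2)) = Y 1 * (Y (i + 2) * Y 1) * Y (j + 2) := by
              noncomm_ring
        _ = -(Y 1 * Y 1 * (Y (i + 2) * Y (j + 2))) := by
          rw [C.anti (i + 2) (by omega) 1 (by omega) (by omega)]
          noncomm_ring
        _ = _ := by rw [hY1, one_mul]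
      have k2 : Y 1 * Y (j + 2) * (Y 1 * Y (i + 2)) = -(Y (j + 2) * Y (i + 2)) := by
        calc Y 1 * Y (j + 2) * (Y 1 * Y (i + 2)) = Y 1 * (Y (j + 2) * Y 1) * Y (i + 2) := by
              noncomm_ring
        _ = -(Y 1 * Y 1 * (Y (j + 2) * Y (i + 2))) := by
          rw [C.anti (j + 2) (by omega) 1 (by omega) (by omega)]
          noncomm_ring
        _ = _ := by rw [hY1, one_mul]
      rw [k1, k2, C.anti (i + 2) (by omega) (j + 2) (by omega) (by omega)]
    exact LinearMap.congr_fun e1 (v : V)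
  · intro W hW hne
    have hYY : ∀ v, Y 1 (Y 1 v) = v := fun v => LinearMap.congr_fun hY1 v
    have hY0Y1 : ∀ v, Y 0 (Y 1 v) = -(Y 1 (Y 0 v)) := fun v => LinearMap.congr_fun h01 v
    obtain ⟨W1, hW1⟩ : ∃ W1, W1 = W.map (Fix (Y 0)).subtype := ⟨_, rfl⟩
    have hW1f : ∀ w ∈ W1, Y 0 w = w := by
      rw [hW1]
      rintro _ ⟨w, -, rfl⟩
      exact w.2
    have hst : ∀ j < M, ∀ w ∈ W1, Y 1 (Y (j + 2) w) ∈ W1 := by
      rw [hW1]
      rintro j hj _ ⟨w, hw, rfl⟩
      have h4 : ι • Y 1 (Y (j + 2) w) ∈ W.map (Fix (Y 0)).subtype := by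
        rw [← hY' j hj w]
        exact ⟨_, hW j hj w hw, rfl⟩
      refine (Submodule.smul_mem_iff _ ?_).1 h4
      rintro rfl
      rw [mul_zero] at hι
      exact one_ne_zero (neg_eq_zero.1 hι.symm)
    have htop : W1 ⊔ W1.map (Y 1) = ⊤ := by
      refine C.irr _ ?_ ?_
      · intro i hi w hw
        obtain ⟨a, ha, _, ⟨b, hb, rfl⟩, rfl⟩ := Submodule.mem_sup.1 hw
        rw [map_add]
        rcases i with _ | _ | i
        · rw [hW1f a ha, hY0Y1, hW1f b hb]
          exact Submodule.add_mem_sup ha (Submodule.neg_mem _ ⟨b, hb, rfl⟩)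
        · rw [zero_add, hYY, add_comm]
          exact Submodule.add_mem_sup hb ⟨a, ha, rfl⟩
        · have hi' : i < M := by omega
          have e1 : Y (i + 2) a = Y 1 (Y 1 (Y (i + 2) a)) := (hYY _).symm
          have e2 : Y (i + 2) (Y 1 b) = -(Y 1 (Y (i + 2) b)) :=
            LinearMap.congr_fun (C.anti (i + 2) (by omega) 1 (by omega) (by omega)) b
          change Y (i + 2) a + Y (i + 2) (Y 1 b) ∈ _
          rw [e1, e2, add_comm]
          exact Submodule.add_mem_sup (Submodule.neg_mem _ (hst i hi' b hb))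
            ⟨_, hst i hi' a ha, rfl⟩
      · intro h0
        apply hne
        rw [Submodule.eq_bot_iff]
        intro w hw
        have h4 : (w : V) ∈ W1 ⊔ W1.map (Y 1) := Submodule.mem_sup_left (by
          rw [hW1]
          exact ⟨w, hw, rfl⟩)
        rw [h0, Submodule.mem_bot] at h4
        exact Subtype.ext h4
    rw [Submodule.eq_top_iff']
    intro u
    have h4 : (u : V) ∈ W1 ⊔ W1.map (Y 1) := by
      rw [htop]
      trivial
    obtain ⟨a, ha, _, ⟨b, hb, rfl⟩, hab⟩ := Submodule.mem_sup.1 h4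
    have hu : Y 0 (u : V) = u := u.2
    have e1 := congrArg (Y 0) hab
    rw [map_add, hW1f a ha, hY0Y1, hW1f b hb, hu, ← hab] at e1
    have e2 : Y 1 b = 0 := by
      have e3 : (2 : K) • Y 1 b = 0 := by
        rw [two_smul]
        have e4 := add_left_cancel e1
        nth_rewrite 1 [← e4]
        exact neg_add_cancel _
      exact (smul_eq_zero.1 e3).resolve_left two_ne_zero
    rw [e2, add_zero] at hab
    rw [hW1] at ha
    obtain ⟨w, hw, hwa⟩ := ha
    have e3 : w = u := Subtype.ext (hwa.trans hab)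
    rwa [← e3]

/-- The base cases: a common eigenvector. -/
theorem CF.base {V : Type u} [AddCommGroup V] [Module K V] [FiniteDimensional K V] {M : ℕ}
    {Y : ℕ → End K V} (C : CF M Y) {v : V} (hv : v ≠ 0)
    (hY : ∀ i < M, ∃ c : K, Y i v = c • v) : finrank K V = 1 := by
  have htop : Submodule.span K {v} = ⊤ := by
    refine C.irr _ ?_ ?_
    · intro i hi w hw
      obtain ⟨t, rfl⟩ := Submodule.mem_span_singleton.1 hw
      obtain ⟨c, hc⟩ := hY i hi
      rw [map_smul, hc]
      exact Submodule.smul_mem _ _ (Submodule.smul_mem _ _ (Submodule.mem_span_singleton_self v))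
    · rwa [ne_eq, Submodule.span_singleton_eq_bot]
  rw [← finrank_top K V, ← htop]
  exact finrank_span_singleton hv

/-- The dimension is a power of two. -/
theorem CF.dim {ι : K} (hι : ι * ι = -1) (M : ℕ) :
    ∀ (V : Type u) [AddCommGroup V] [Module K V] [FiniteDimensional K V] [Nontrivial V]
      (Y : ℕ → End K V), CF M Y → ∃ n, finrank K V = 2 ^ n := by
  induction M using Nat.twoStepInduction with
  | zero =>
    intro V _ _ _ _ Y C
    obtain ⟨v, hv⟩ := exists_ne (0 : V)
    exact ⟨0, by rw [C.base hv fun i hi => absurd hi (by omega), pow_zero]⟩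
  | one =>
    intro V _ _ _ _ Y C
    obtain ⟨v, hv⟩ := exists_ne (0 : V)
    obtain ⟨a, b, ha, hb, hab⟩ := split_fix (C.sq 0 (by omega)) v
    obtain ⟨w, c, hw0, hw⟩ : ∃ (w : V) (c : K), w ≠ 0 ∧ Y 0 w = c • w := by
      by_cases h0 : a = 0
      · refine ⟨b, -1, ?_, by rw [hb, neg_smul, one_smul]⟩
        rintro rfl
        apply hv
        rw [hab, h0, add_zero]
      · exact ⟨a, 1, h0, by rw [ha, one_smul]⟩
    exact ⟨0, by rw [C.base hw0 fun i hi => ⟨c, by
      obtain rfl : i = 0 := by omega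
      exact hw⟩, pow_zero]⟩
  | more M ih _ =>
    intro V _ _ _ _ Y C
    obtain ⟨Y', C'⟩ := C.step hι
    have h1 := finrank_fix (C.sq 0 (by omega)) (C.sq 1 (by omega))
      (C.anti 0 (by omega) 1 (by omega) (by omega))
    have h2 : 0 < finrank K V := Module.finrank_pos
    have h30 : 0 < finrank K (Fix (Y 0)) := by omega
    have h3 : Nontrivial (Fix (Y 0)) := (Module.finrank_pos_iff (R := K)).1 h30
    obtain ⟨n, hn⟩ := ih _ Y' C'
    exact ⟨n + 1, by rw [← h1, hn, pow_succ]; ring⟩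

end cf

section

variable {K : Type*} [Field K] [CharZero K] {V : Type u} [AddCommGroup V] [Module K V]
  [FiniteDimensional K V] {G : Submodule K (End K V)} {st : End K V →ₗ[K] End K V}
  (h : Setup G st) {ε : End K V} (b : Blk G st ε)

include h b in
/-- The family of anticommuting involutions on the first summand. -/
theorem exists_cf [IsAlgClosed K] {D e f P Q : End K V} {r : K} (F : Spin G D e f P Q r)
    (hD : D ∈ G) (hD2 : D * D = 1) (H : Gen3 G ε D) :
    ∃ (M : ℕ) (Y : ℕ → End K (LinearMap.range ε)), CF M Y := by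
  obtain ⟨n, x, hx, hspan, hsq, hort⟩ := F.exists_onb h hD hD2
  obtain ⟨s, hsd⟩ : ∃ s : Fin n → End K V, ∀ i, s i = Spin.sh f r (x i) := ⟨_, fun i => rfl⟩
  have hs' : ∀ i, s i ∈ Kp G (-D) := fun i => by
    rw [hsd]
    exact F.sh_mem h (hx i)
  have hsn : ∀ i, s i ∈ G ∧ D * s i = -(s i) ∧ s i * D = s i := fun i => mem_Kn.1 (hs' i)
  obtain ⟨Z, hZ⟩ : ∃ Z : Fin n → End K V, ∀ i, Z i = x i + s i := ⟨_, fun i => rfl⟩
  have hxx : ∀ i j, x i * x j = 0 := fun i j => kp_zero (hx i) (hx j)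
  have hss : ∀ i j, s i * s j = 0 := fun i j => kp_zero (hs' i) (hs' j)
  have hDZ : ∀ i, D * Z i = -(Z i * D) := by
    intro i
    rw [hZ, mul_add, add_mul, (hx i).2.1, (hx i).2.2, (hsn i).2.1, (hsn i).2.2]
    abel
  have hZZ : ∀ i, Z i * Z i = 1 := by
    intro i
    rw [hZ, add_mul, mul_add, mul_add, hxx, hss, zero_add, add_zero, hsd, (hsq i).1, (hsq i).2, F.PQ]
  have hZa : ∀ i j, i ≠ j → Z i * Z j = -(Z j * Z i) := by
    intro i j hij
    have h1 := (hort i j hij).1
    have h2 := (hort i j hij).2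
    rw [← hsd, ← hsd] at h1 h2
    rw [hZ, hZ, add_mul, mul_add, mul_add, hxx, hss, add_mul, mul_add, mul_add, hxx, hss]
    have h3 : x i * s j = -(x j * s i) := eq_neg_of_add_eq_zero_left h1
    have h4 : s i * x j = -(s j * x i) := eq_neg_of_add_eq_zero_left h2
    rw [h3, h4]
    abel
  have hZG : ∀ i, Z i ∈ G := fun i => by
    rw [hZ]
    exact G.add_mem (hx i).1 (hsn i).1
  let Y : ℕ → End K V := fun k => if hk : k - 1 < n ∧ k ≠ 0 then Z ⟨k - 1, hk.1⟩ else D
  have hY0 : Y 0 = D := by simp [Y]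
  have hYs : ∀ i : Fin n, Y (i + 1) = Z i := by
    intro i
    have h1 : (i : ℕ) + 1 - 1 < n ∧ (i : ℕ) + 1 ≠ 0 := ⟨by have := i.2; omega, by omega⟩
    simp only [Y, dif_pos h1]
    congr 1
  have hcase : ∀ k < n + 1, k = 0 ∨ ∃ i : Fin n, k = i + 1 := by
    intro k hk
    rcases Nat.eq_zero_or_pos k with h1 | h1
    · exact Or.inl h1
    · exact Or.inr ⟨⟨k - 1, by omega⟩, by simp; omega⟩
  have hYG : ∀ k < n + 1, Y k ∈ G := by
    intro k hk
    rcases hcase k hk with rfl | ⟨i, rfl⟩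
    · rw [hY0]; exact hD
    · rw [hYs]; exact hZG i
  have hYsq : ∀ k < n + 1, Y k * Y k = 1 := by
    intro k hk
    rcases hcase k hk with rfl | ⟨i, rfl⟩
    · rw [hY0]; exact hD2
    · rw [hYs]; exact hZZ i
  have hYanti : ∀ k < n + 1, ∀ l < n + 1, k ≠ l → Y k * Y l = -(Y l * Y k) := by
    intro k hk l hl hkl
    rcases hcase k hk with rfl | ⟨i, rfl⟩
    · rcases hcase l hl with rfl | ⟨j, rfl⟩
      · exact absurd rfl hkl
      · rw [hY0, hYs]; exact hDZ j
    · rcases hcase l hl with rfl | ⟨j, rfl⟩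
      · rw [hY0, hYs, hDZ, neg_neg]
      · rw [hYs, hYs]
        exact hZa i j fun h0 => hkl (by rw [h0])
  have hcY : ∀ k < n + 1, ε * Y k = Y k * ε := fun k hk => b.comm _ (hYG k hk)
  refine ⟨n + 1, fun k => RE ε (Y k), ?_, ?_, ?_⟩
  · intro k hk
    rw [← RE_mul b.idem _ (hcY k hk), hYsq k hk, RE_one b.idem]
  · intro k hk l hl hkl
    rw [← RE_mul b.idem _ (hcY k hk), ← RE_mul b.idem _ (hcY l hl), hYanti k hk l hl hkl, map_neg]
  · intro W₀ hW₀ hne₀
    obtain ⟨W, hWd⟩ : ∃ W, W = W₀.map (LinearMap.range ε).subtype := ⟨_, rfl⟩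
    have hWε : ∀ w ∈ W, ε w = w := by
      rw [hWd]
      rintro _ ⟨w, -, rfl⟩
      exact eps_of_range b.idem w
    have hW : ∀ i < n + 1, ∀ w ∈ W, Y i w ∈ W := by
      rw [hWd]
      rintro i hi _ ⟨w, hw, rfl⟩
      refine ⟨_, hW₀ i hi w hw, ?_⟩
      change ((RE ε (Y i) w : LinearMap.range ε) : V) = Y i w
      rw [RE_apply b.idem (hcY i hi)]
    have hne : W ≠ ⊥ := by
      intro h0
      apply hne₀
      rw [Submodule.eq_bot_iff]
      intro w hw
      have h4 : (w : V) ∈ W := by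
        rw [hWd]
        exact ⟨w, hw, rfl⟩
      rw [h0, Submodule.mem_bot] at h4
      exact Subtype.ext h4
    have hWD : ∀ w ∈ W, D w ∈ W := by
      intro w hw
      have h1 := hW 0 (by omega) w hw
      rwa [hY0] at h1
    have hWZ : ∀ i, ∀ w ∈ W, Z i w ∈ W := by
      intro i w hw
      have h1 := hW (i + 1) (by have := i.2; omega) w hw
      rwa [hYs] at h1
    have hWx : ∀ i, ∀ w ∈ W, x i w ∈ W := by
      intro i w hw
      have h1 : (2 : K) • x i w = Z i w + D (Z i w) := by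
        have e1 : Z i + D * Z i = (2 : K) • x i := by
          rw [hZ, mul_add, (hx i).2.1, (hsn i).2.1, two_smul]
          abel
        exact (LinearMap.congr_fun e1 w).symm
      refine (Submodule.smul_mem_iff W (two_ne_zero (α := K))).1 ?_
      rw [h1]
      exact W.add_mem (hWZ i w hw) (hWD _ (hWZ i w hw))
    have hWs : ∀ i, ∀ w ∈ W, s i w ∈ W := by
      intro i w hw
      have h1 : s i w = Z i w - x i w := by
        rw [hZ]
        simp
      rw [h1]
      exact W.sub_mem (hWZ i w hw) (hWx i w hw)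
    let S : Submodule K (End K V) :=
      { carrier := {z | ∀ w ∈ W, z w ∈ W}
        zero_mem' := fun w _ => W.zero_mem
        add_mem' := fun {a b} ha hb w hw => W.add_mem (ha w hw) (hb w hw)
        smul_mem' := fun c a ha w hw => W.smul_mem c (ha w hw) }
    have hp : Kp G D ≤ S := by
      refine hspan.trans ?_
      rw [Submodule.span_le]
      rintro _ ⟨i, rfl⟩
      exact hWx i
    have hsh : ∀ y ∈ Kp G D, Spin.sh f r y ∈ S := by
      intro y hy
      have h1 : Submodule.span K (Set.range x) ≤ S.comap (Spin.sh f r) := by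
        rw [Submodule.span_le]
        rintro _ ⟨i, rfl⟩
        change Spin.sh f r (x i) ∈ S
        rw [← hsd]
        exact hWs i
      exact h1 (hspan hy)
    have hn : Kp G (-D) ≤ S := by
      intro z hz
      have hy : e * z * e ∈ Kp G D := by
        have h2 := kp_tri h F.em hz F.em
        rw [← two_smul K] at h2
        exact (Submodule.smul_mem_iff _ (two_ne_zero (α := K))).1 h2
      have h3 : f * (e * z * e) * f = z := by
        calc f * (e * z * e) * f = (f * e) * z * (e * f) := by noncomm_ring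
        _ = z := by rw [F.fe, F.ef, F.Qz hz, F.zP hz]
      have h4 := hsh _ hy
      rw [Spin.sh_apply, h3] at h4
      have h5 : f ∈ S := by
        rw [← F.sh_e]
        exact hsh e F.em
      have h6 := S.sub_mem (S.smul_mem (r⁻¹ * trace K V (e * z * e * f)) h5) h4
      rwa [sub_sub_cancel] at h6
    have hst := H W (fun w hw => by rw [hWε w hw]; exact hw) (fun y hy => hp hy)
      (fun y hy => hn hy)
    rw [Submodule.eq_top_iff']
    intro v
    have h4 : (v : V) ∈ W := b.irr h hst hWε hne (eps_of_range b.idem v)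
    rw [hWd] at h4
    obtain ⟨w, hw, hwv⟩ := h4
    have h5 : w = v := Subtype.ext hwv
    rwa [← h5]

include h b in
theorem tr_eps {D c d p q : End K V} (F : MP G st D c d p q) :
    trace K V (ε * p) = (rk (ε * c) : K) ∧ trace K V (ε * q) = (rk (ε * c) : K) ∧
      0 < rk (ε * c) := by
  have cp : ε * p = p * ε := by
    rw [← F.cd, ← mul_assoc, b.comm _ F.cm.1, mul_assoc, b.comm _ F.dm.1, ← mul_assoc]
  have hεp : ε * p * (ε * p) = ε * p := by
    calc ε * p * (ε * p) = ε * (p * ε) * p := by noncomm_ring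
    _ = (ε * ε) * (p * p) := by rw [← cp]; noncomm_ring
    _ = ε * p := by rw [b.idem, F.pp]
  have e2 : trace K V (ε * p) = rk (ε * c) := by
    rw [trace_idem hεp]
    congr 1
    apply le_antisymm
    · rw [← F.cd, ← mul_assoc]
      exact rk_mul_le_left _ _
    · have e3 : ε * c = ε * p * c := by rw [mul_assoc, F.pc]
      rw [e3]
      exact rk_mul_le_left _ _
  have e3 : trace K V (ε * p) = trace K V (ε * q) := by
    rw [← F.cd, ← F.dc, ← mul_assoc, LinearMap.trace_mul_comm, b.comm c F.cm.1, ← mul_assoc,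
      LinearMap.trace_mul_comm]
  exact ⟨e2, e3 ▸ e2, rk_pos_of_ne fun h0 => F.ne (b.zero_of h F.cm.1 h0)⟩

end

/-- **Spin representations.** -/
theorem spin : Pool.Agent.Y91.G.S_SPIN := by
  intro K _ _ _ V _ _ _ G st h ε b htr D c1 d1 p1 q1 c2 d2 p2 q2 a F hD hD2 hG hneθ e1 e2
  have T := F.T
  have hPQ : p1 + p2 + (q1 + q2) = 1 := by
    have e3 : (2 : K) • (p1 + p2 + (q1 + q2)) = (2 : K) • (1 : End K V) := by
      rw [smul_add, smul_add, smul_add, ← e1, ← e2, two_smul]
      abel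
    exact smul_right_injective _ (two_ne_zero (α := K)) e3
  have hPD : p1 + p2 - (q1 + q2) = D := by
    have e3 : (2 : K) • (p1 + p2 - (q1 + q2)) = (2 : K) • D := by
      rw [smul_sub, smul_add, smul_add, ← e1, ← e2, two_smul]
      abel
    exact smul_right_injective _ (two_ne_zero (α := K)) e3
  have hrd : ∀ {c d p q : End K V}, MP G st D c d p q → rk d ≤ rk c := by
    intro c d p q A
    conv_lhs => rw [← A.qd, ← A.dc]
    exact (rk_mul_le_left _ _).trans (rk_mul_le_right _ _)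
  have hrk2 : rk c2 = rk c1 := by
    apply le_antisymm
    · rw [← F.ada']
      exact ((rk_mul_le_left _ _).trans (rk_mul_le_right _ _)).trans (hrd T.A)
    · conv_lhs => rw [← F.ada]
      exact ((rk_mul_le_left _ _).trans (rk_mul_le_right _ _)).trans (hrd T.B)
  have FS := spin_of_two h T hPQ hPD hrk2
  obtain ⟨M, Y, C⟩ := exists_cf h b FS hD hD2 (gen3 h b hD hD2 hG hneθ)
  obtain ⟨ι, hι⟩ := IsAlgClosed.exists_pow_nat_eq (-1 : K) (n := 2) (by norm_num)
  rw [pow_two] at hι
  obtain ⟨t1, t2, t3⟩ := tr_eps h b T.A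
  obtain ⟨t4, t5, t6⟩ := tr_eps h b T.B
  have hr : rk ε = 2 * (rk (ε * c1) + rk (ε * c2)) := by
    have e3 : (rk ε : K) = 2 * (rk (ε * c1) + rk (ε * c2)) := by
      rw [← trace_idem b.idem]
      have e4 : ε = ε * p1 + ε * p2 + (ε * q1 + ε * q2) := by
        rw [← mul_add, ← mul_add, ← mul_add, hPQ, mul_one]
      conv_lhs => rw [e4]
      rw [map_add, map_add, map_add, t1, t2, t4, t5]
      ring
    exact_mod_cast e3
  have hfr : finrank K (LinearMap.range ε) = rk ε := rfl
  have hnt : Nontrivial (LinearMap.range ε) :=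
    (Module.finrank_pos_iff (R := K)).1 (by rw [hfr]; omega)
  obtain ⟨n, hn⟩ := CF.dim hι M _ Y C
  refine ⟨n, ?_, by rw [← hn, hfr]⟩
  by_contra hcon
  have h6 : n = 0 ∨ n = 1 := by omega
  rcases h6 with rfl | rfl
  · rw [hfr] at hn
    omega
  · rw [hfr] at hn
    omega

end Pool.Agent.Y442.G
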